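import Mathlib
import Pool.Agent.W722.Stk.Defs
import Pool.Agent.W722.Stk.Bridge
import Pool.Agent.TH605.Stk3.Final
set_option autoImplicit false
open Set Filter Topology MeasureTheory
open scoped ENNReal Manifold ContDiff
open Pool.Agent.W722.Stk

/-!
# Large first Steklov eigenvalue under volume constraints in dimension 3

There are a compact connected smooth 3-manifold `M` with nonempty boundary (namely
`M = [0,1] × T²`) and, for all `V > 0` and `A > 0`, smooth Riemannian metrics `g_n` on `M` of volume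
exactly `V`, with boundary of area exactly `A`, all inducing the same metric on the boundary, such
that the first nonzero Steklov eigenvalue `σ₁(M, g_n)` tends to infinity.

With coordinates `s ∈ [0,1]`, `(x, y) ∈ (ℝ/ℤ)²`, the metrics are
`f² (e^(-2λ) ds² + α e^(λ θ) dx² + α e^(-λ θ) dy²)` where `θ = -64 s (1 - s) (1 - 2 s)`, `α = A / 2`,
`f = e^(σ s (1 - s))`, and `σ ≥ 0` is chosen, for every large `λ`, such that the volume is `V`.

The definitions are in `Pool/Agent/W722/Stk/Defs.lean` (with `d = 2`):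

* `RMetric d Ω`: the smooth Riemannian metrics on the smooth manifold with boundary `Ω` of dimension
  `d + 1` (modelled on `EuclideanHalfSpace (d + 1)`);
* `bdry d Ω`: the boundary of `Ω`;
* `IsVolume g μ`: `μ` is the Riemannian volume measure of `g`, `√(det g_ij) dy` in every chart;
* `IsBdryVolume g ν`: `ν` is the Riemannian measure of the metric induced by `g` on the boundary,
  seen as a measure on `Ω` carried by the boundary;
* `bgram g c x`: the matrix, in the chart at `c`, of the metric induced by `g` on the boundary;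
* `energy g μ u = ∫_Ω |du|²_g dμ` and `bsq ν u = ∫_{∂Ω} u² dν`.
-/

namespace Pool.Agent.Results.MP_441052_gt.LargeSteklovDim3

/-- The first nonzero Steklov eigenvalue
`σ₁ = inf { ∫_Ω |du|² dμ / ∫_{∂Ω} u² dν : ∫_{∂Ω} u dν = 0, u ≠ 0 on ∂Ω }`, the infimum over the
functions `u` which are smooth on `Ω` up to the boundary. -/
noncomputable def sigmaOne {d : ℕ} {Ω : Type*} [TopologicalSpace Ω]
    [ChartedSpace (EuclideanHalfSpace (d + 1)) Ω] [IsManifold (𝓡∂ (d + 1)) ∞ Ω]
    [MeasurableSpace Ω] (g : RMetric d Ω) (μ ν : Measure Ω) : ℝ≥0∞ :=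
  ⨅ (u : Ω → ℝ) (_ : Smooth d u) (_ : ∫ x, u x ∂ν = 0) (_ : bsq ν u ≠ 0),
    energy g μ u / bsq ν u

/-- There is a compact connected (Hausdorff) smooth manifold `M` of dimension 3 with nonempty
boundary such that for all `V > 0` and `A > 0` there are smooth Riemannian metrics `g n` on `M`, with
volume measures `μ n` and boundary measure `ν`, such that `Vol_{g n}(M) = V`,
`Vol_{g n}(∂M) = A`, all `g n` induce the same metric on the boundary, and `σ₁(M, g n) → ∞`. -/
theorem result :
    ∃ (M : Type) (_ : TopologicalSpace M) (_ : ChartedSpace (EuclideanHalfSpace (2 + 1)) M)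
      (_ : IsManifold (𝓡∂ (2 + 1)) ∞ M) (_ : CompactSpace M) (_ : T2Space M)
      (_ : ConnectedSpace M) (_ : MeasurableSpace M) (_ : BorelSpace M),
      (bdry 2 M).Nonempty ∧
      ∀ V A : ℝ, 0 < V → 0 < A → ∃ (g : ℕ → RMetric 2 M) (μ : ℕ → Measure M) (ν : Measure M),
        (∀ n, IsVolume (g n) (μ n) ∧ μ n univ = ENNReal.ofReal V ∧
          IsBdryVolume (g n) ν ∧ ν univ = ENNReal.ofReal A ∧
          ∀ c, ∀ x ∈ dom 2 c ∩ bdry 2 M, bgram (g n) c x = bgram (g 0) c x) ∧
        Tendsto (fun n => sigmaOne (g n) (μ n) ν) atTop (𝓝 ⊤) := by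
  refine ⟨Pool.Agent.TH605.Stk3.MM, inferInstance, inferInstance, inferInstance, inferInstance,
    inferInstance, inferInstance, inferInstance, inferInstance,
    Pool.Agent.TH605.Stk3.bdry_nonempty, ?_⟩
  intro V A hV hA
  set α : ℝ := A / 2 with hα'
  have hα : 0 < α := by positivity
  set l : ℕ → ℝ := fun n => n + |Real.log (α / V)| with hl
  have hl0 : ∀ n, 0 ≤ l n := fun n => by simp only [hl]; positivity
  have hT : ∀ n, 1 ≤ V * Real.exp (l n) / α := by
    intro n
    rw [le_div_iff₀ hα, one_mul]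
    have h1 : Real.log (α / V) ≤ l n := by
      simp only [hl]
      have := le_abs_self (Real.log (α / V))
      have hn : (0:ℝ) ≤ n := Nat.cast_nonneg n
      linarith
    have h2 : α / V ≤ Real.exp (l n) := by
      rw [← Real.exp_log (div_pos hα hV)]
      exact Real.exp_le_exp.2 h1
    rw [div_le_iff₀ hV] at h2
    linarith
  choose σ hσ hσT using fun n => Pool.Agent.TH605.Stk3.exists_sigma (hT n)
  refine ⟨fun n => ofMan (Pool.Agent.TH605.Stk3.met (Pool.Agent.TH605.Stk3.AA α hα (σ n) (l n))),
    fun n => Pool.Agent.TH605.Stk3.mu (Pool.Agent.TH605.Stk3.dens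
      (Pool.Agent.TH605.Stk3.AA α hα (σ n) (l n))),
    Pool.Agent.TH605.Stk3.nu (ENNReal.ofReal α), ?_, ?_⟩
  · intro n
    refine ⟨isVolume_ofMan (Pool.Agent.TH605.Stk3.isVolume_met _), ?_, ?_, ?_, ?_⟩
    · rw [Pool.Agent.TH605.Stk3.mu_univ, hσT]
      congr 1
      rw [Real.exp_neg]
      field_simp
    · refine isBdryVolume_ofMan (Pool.Agent.TH605.Stk3.isBdryVolume_met _ hα ?_ ?_)
      · rw [Pool.Agent.TH605.Stk3.AA1, Pool.Agent.TH605.Stk3.AA2]
        unfold Pool.Agent.TH605.Stk3.th
        simp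
        ring
      · rw [Pool.Agent.TH605.Stk3.AA1, Pool.Agent.TH605.Stk3.AA2]
        unfold Pool.Agent.TH605.Stk3.th
        simp
        ring
    · rw [Pool.Agent.TH605.Stk3.nu_univ, ← ENNReal.ofReal_add hα.le hα.le]
      congr 1
      rw [hα']; ring
    · intro c x hx
      have hs : x ∈ (extChartAt Pool.Agent.TH605.Stk3.I3 c).source := by
        rw [extChartAt_source]
        exact hx.1
      exact (Pool.Agent.TH605.Stk3.bgram_bdry hα (σ n) (l n) hx.2 hs).trans
        (Pool.Agent.TH605.Stk3.bgram_bdry hα (σ 0) (l 0) hx.2 hs).symm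
  · have hlt : Tendsto l atTop atTop :=
      tendsto_atTop_add_const_right _ _ tendsto_natCast_atTop_atTop
    refine tendsto_nhds_top_mono' (Pool.Agent.TH605.Stk3.tendsto_bound hα hlt) ?_
    intro n
    refine le_iInf fun u => le_iInf fun hu => le_iInf fun h0 => le_iInf fun hb => ?_
    exact Pool.Agent.TH605.Stk3.ray hα (hσ n) (hl0 n) hu h0 hb

end Pool.Agent.Results.MP_441052_gt.LargeSteklovDim3
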